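import Pool.Agent.Lib.helper15.Sg5

/-! Intersection graphs of balls. -/

namespace Pool.Agent.H.MP_065e13_lc

open Pool.Agent.Lib.CX Pool.Agent.Lib.ER Pool.Agent.Lib.SG Filter Topology Module

set_option synthInstance.maxSize 4000

def G {d} (x y : Pt d) : ℝ := (x.1 + y.1) ^ 2 - (x.2 ⬝ᵥ x.2 + y.2 ⬝ᵥ y.2 - 2 * x.2 ⬝ᵥ y.2)

def BL (d : ℕ) (a : Gr) : Prop := Rep (fun x : Pt d => 0 < x.1) (fun x y => 0 ≤ G x y) a

theorem memb (d) : Red (BL d) ETR := by
  have := rep_memb (Q := fun _ => True) (P := fun x : Pt d => 0 < x.1) (R := fun _ x y => 0 ≤ G x y)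
    (χ := .eq (.num 0) (.num 0)) (ψ := fun u => .lt (.num 0) (.var (1 + (d + 1) * u)))
    (φ := fun e => .le (.add (dt (2 + (d + 1) * e.1) (2 + (d + 1) * e.1) d) (dt (2 + (d + 1) * e.2) (2 + (d + 1) * e.2) d))
      (.add (.mul (.add (.var (1 + (d + 1) * e.1)) (.var (1 + (d + 1) * e.2)))
        (.add (.var (1 + (d + 1) * e.1)) (.var (1 + (d + 1) * e.2))))
      (.mul (.num 2) (dt (2 + (d + 1) * e.1) (2 + (d + 1) * e.2) d)))) (by fun_prop)
    (pt_le (pt_add (pt_dt (by fun_prop) (by fun_prop) d) (pt_dt (by fun_prop) (by fun_prop) d))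
      (pt_add (by fun_prop) (pt_mul (PT.const _) (pt_dt (by fun_prop) (by fun_prop) d))))
    (fun x => by simp [Fm.Holds]) (fun x u => by simp [Fm.Holds, Tm.eval, pt])
    (fun x u v => by simp [Fm.Holds, Tm.eval, dt_eval, G, pt, sq])
  simp only [true_and, exists_const] at this
  exact this

variable {N : Type} [DecidableEq N] [Inhabited N]

def vs (I : Inst N) : List (ℕ × Bool × N) := (([true, false] ×ˢ I.1).map fun i => (0, i)) ++
  (([true, false] ×ˢ I.2.1).map fun i => (1, i)) ++ [(2, default), (3, default), (4, default)]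

def r (I : Inst N) (u v : ℕ × Bool × N) : Bool := decide (u.1 = v.1 ∨ u.1 = 0 ∧ v.1 = 1 ∧ (u.2.2, v.2.2) ∈ I.2.2 ∨
  u.1 + 2 ≤ v.1 ∧ v.1 ≤ 3 * u.1 + 2 ∧ u.1 < 2 ∧ u.2.1 = true ∨ 2 ≤ u.1 ∧ u.1 + 1 = v.1)

theorem pt_red [Enc N] : PT fun I : Inst N => gr (vs I) (r I) := by unfold gr vs r; fun_prop

theorem G_comm {d} (x y : Pt d) : G x y = G y x := by rw [G, G, dotProduct_comm x.2 y.2]; ring

theorem mem_vs {I : Inst N} {t s i} : (t, s, i) ∈ vs I ↔ t = 0 ∧ i ∈ I.1 ∨ t = 1 ∧ i ∈ I.2.1 ∨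
    (t = 2 ∨ t = 3 ∨ t = 4) ∧ (s, i) = default := by
  cases s <;> simp [vs, and_comm, eq_comm, or_and_right, or_assoc]

theorem bl_iff {d} (I : Inst N) : BL d (gr (vs I) (r I)) ↔ ∃ c : ℕ × Bool × N → Pt d,
    (∀ u ∈ vs I, 0 < (c u).1) ∧ ∀ u ∈ vs I, ∀ v ∈ vs I, u.1 ≤ v.1 → u ≠ v → (r I u v ↔ 0 ≤ G (c u) (c v)) :=
  rep_gr (fun u v h => by simp [r, h]) fun x y h => G_comm x y ▸ h

noncomputable def B (d : ℕ) : (ℝ × ℝ × Pt d) →ₗ[ℝ] (ℝ × ℝ × Pt d) →ₗ[ℝ] ℝ :=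
  LinearMap.mk₂ ℝ (fun p l => p.1 * l.2.1 + p.2.1 * l.1 + 2 * (p.2.2.1 * l.2.2.1 + p.2.2.2 ⬝ᵥ l.2.2.2))
    (fun _ _ _ => by simp; ring) (fun _ _ _ => by simp; ring) (fun _ _ _ => by simp; ring) (fun _ _ _ => by simp; ring)

theorem B_comm {d} (x y) : B d x y = B d y x := by simp [B, dotProduct_comm x.2.2.2]; ring

theorem sound {d} (I : Inst N) (h : BL d (gr (vs I) (r I))) : SR (d + 1) I := by
  obtain ⟨c, p, h⟩ := (bl_iff I).1 h
  have : ∀ᶠ η in 𝓝[>] (0 : ℝ), ∀ u ∈ vs I, ∀ v ∈ vs I, u.1 ≤ v.1 → u ≠ v →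
      S (r I u v) (G ((c u).1 + η, (c u).2) ((c v).1 + η, (c v).2)) := ev_all _ fun u hu => ev_all _ fun v hv => by
    by_cases q : u.1 ≤ v.1 ∧ u ≠ v
    · have k := h u hu v hv q.1 q.2
      by_cases t : r I u v
      · filter_upwards [self_mem_nhdsWithin] with η (e : 0 < η) _ _
        have := k.1 t
        simp only [t, G, S_true] at this ⊢
        nlinarith [p u hu, p v hv]
      · refine (ev_S (b := False) (g := fun η => G ((c u).1 + η, (c u).2) ((c v).1 + η, (c v).2))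
          (by unfold G; fun_prop) (by simpa [t] using k) 0).mono fun η e _ _ => by simpa [t] using e
    · exact .of_forall fun _ a b => (q ⟨a, b⟩).elim
  obtain ⟨η, h⟩ := this.exists
  obtain ⟨Φ, f1, f2⟩ : ∃ Φ : ℕ × Bool × N → ℝ × ℝ × Pt d, (∀ u, (Φ u).1 = 1) ∧ ∀ u ∈ vs I, ∀ v ∈ vs I, u.1 < v.1 →
      S (r I u v) (B d (Φ v) (Φ u)) := ⟨fun u => (1, ((c u).1 + η) ^ 2 - (c u).2 ⬝ᵥ (c u).2, (c u).1 + η, (c u).2),
    fun _ => rfl, fun u hu v hv q => by
      convert h u hu v hv q.le (fun e => q.ne (congrArg Prod.fst e)) using 1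
      simp [B, G, dotProduct_comm (c v).2]; ring⟩
  have m0 : ∀ s, ∀ i ∈ I.1, (0, s, i) ∈ vs I := fun s i a => mem_vs.2 (.inl ⟨rfl, a⟩)
  have m1 : ∀ s, ∀ i ∈ I.2.1, (1, s, i) ∈ vs I := fun s i a => mem_vs.2 (.inr (.inl ⟨rfl, a⟩))
  have m2 : ((2, default) : ℕ × Bool × N) ∈ vs I := by simp [vs]
  have m3 : ((3, default) : ℕ × Bool × N) ∈ vs I := by simp [vs]
  have m4 : ((4, default) : ℕ × Bool × N) ∈ vs I := by simp [vs]
  have a1 : 0 < B d (Φ (2, default)) (Φ (3, default)) := by simpa [r, B_comm] using f2 _ m2 _ m3 (by simp)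
  have a2 : B d (Φ (2, default)) (Φ (4, default)) < 0 := by simpa [r, B_comm] using f2 _ m2 _ m4 (by simp)
  obtain ⟨g, g1, g2, g3⟩ : ∃ g, B d (Φ (2, default)) g = 0 ∧ g.1 ≠ 0 ∧
      ∀ s, ∀ j ∈ I.2.1, S (s = true) (B d g (Φ (1, s, j))) := by
    obtain ⟨a, b, a0, b0, e⟩ := comb2 (B d (Φ (2, default))) (Φ (3, default)) (Φ (4, default))
    refine ⟨_, e a1 a2, by simp [f1]; positivity, fun s j hj => S.comb (φ := (B d).flip _) a0 b0 ?_ ?_⟩
    · simpa [r] using f2 _ (m1 s j hj) _ m3 (by simp)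
    · simpa [r] using f2 _ (m1 s j hj) _ m4 (by simp)
  choose a b a0 b0 e using fun i => comb2 (B d (Φ (2, default))) (Φ (0, true, i)) (Φ (0, false, i))
  choose a' b' a0' b0' e' using fun j => comb2 (B d g) (Φ (1, true, j)) (Φ (1, false, j))
  let U := LinearMap.ker (B d (Φ (2, default)))
  let ψ : U →ₗ[ℝ] ℝ := (LinearMap.fst ℝ ℝ _).domRestrict U
  have r1 := ker_le (φ := B d (Φ (2, default))) fun q => by simp [q] at a1
  have r2 := ker_le (φ := ψ) fun q => g2 (LinearMap.congr_fun q ⟨g, g1⟩)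
  simp only [finrank_prod, finrank_self, finrank_fintype_fun_eq_card, Fintype.card_fin] at r1
  have z : ∀ i ∈ I.1, B d (Φ (2, default)) (a i • Φ (0, true, i) + b i • Φ (0, false, i)) = 0 := fun i hi =>
    e i (by simpa [r] using f2 _ (m0 true i hi) _ m2 (by simp)) (by simpa [r] using f2 _ (m0 false i hi) _ m2 (by simp))
  refine ⟨LinearMap.ker ψ, inferInstance, inferInstance, inferInstance, by have r3 : finrank ℝ U + 1 = _ := r1; omega,
    fun i => if hi : i ∈ I.1 then ⟨⟨a i • Φ (0, true, i) + b i • Φ (0, false, i) - ((a i + b i) / g.1) • g,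
      by simp only [U, LinearMap.mem_ker, map_sub, z i hi, map_smul, g1, smul_zero, sub_zero]⟩,
      by simp [ψ, f1, g2]⟩ else 0,
    fun j => ((B d (a' j • Φ (1, true, j) + b' j • Φ (1, false, j))).domRestrict U).domRestrict _, fun i hi j hj => ?_⟩
  have k := e' j ((g3 true j hj).1 rfl) ((g3 false j hj).2 (by simp))
  have l : ∀ s t, S ((i, j) ∈ I.2.2) (B d (Φ (1, t, j)) (Φ (0, s, i))) := fun s t => by
    simpa [r] using f2 _ (m0 s i hi) _ (m1 t j hj) (by simp)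
  simp only [hi, dif_pos, LinearMap.domRestrict_apply, map_sub, map_smul]
  rw [B_comm _ g, k, smul_zero, sub_zero]
  exact S.comb (a0 i) (b0 i) (S.comb (φ := (B d).flip _) (a0' j) (b0' j) (l _ _) (l _ _))
    (S.comb (φ := (B d).flip _) (a0' j) (b0' j) (l _ _) (l _ _))

def G3 {m} (x y : ℝ × Pt m) : ℝ :=
  (x.1 + y.1) ^ 2 - (x.2.1 - y.2.1) ^ 2 - (x.2.2 ⬝ᵥ x.2.2 + y.2.2 ⬝ᵥ y.2.2 - 2 * x.2.2 ⬝ᵥ y.2.2)

theorem e0 (b : Prop) (g : ℝ → ℝ) (a : Continuous g) (c : S b (g 0)) : ∀ᶠ ε in 𝓝[>] (0 : ℝ), S b (g ε) := by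
  simpa using ev_S a c 0

theorem small {m} (I : Inst N) (h : NF m I) : ∃ c : ℕ × Bool × N → ℝ × Pt m, ∀ u ∈ vs I, u.1 < 2 → (0 < (c u).1 ∧
    S (u.1 = 0 ∧ u.2.1 = true) ((c u).1 - (c u).2.1) ∧ S (u.1 = 1 ∧ u.2.1 = true) ((c u).1 + (c u).2.1 - 4)) ∧
    ∀ v ∈ vs I, v.1 < 2 → u.1 ≤ v.1 → S (r I u v) (G3 (c u) (c v)) := by
  obtain ⟨α, β, y, z, h⟩ := h
  let σ : Bool → ℝ := fun s => if s then 1 else -1
  have hσ : ∀ s : Bool, S (s = true) (σ s) := fun s => by cases s <;> simp [σ]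
  let c : ℝ → ℕ × Bool × N → ℝ × Pt m := fun ε u => if u.1 = 0 then
    (1 + ε ^ 2 * ((2 * α u.2.2 + y u.2.2 ⬝ᵥ y u.2.2) / 8) + ε ^ 3 * σ u.2.1,
      1 + ε ^ 2 * ((2 * α u.2.2 + y u.2.2 ⬝ᵥ y u.2.2) / 8), ε • y u.2.2) else
    (1 + ε ^ 2 * ((2 * β u.2.2 + z u.2.2 ⬝ᵥ z u.2.2) / 8) + ε ^ 3 * σ u.2.1,
      3 - ε ^ 2 * ((2 * β u.2.2 + z u.2.2 ⬝ᵥ z u.2.2) / 8), ε • z u.2.2)
  refine Exists.imp' c (fun _ h => h) (ev_all (f := 𝓝[>] (0 : ℝ)) _ fun ⟨t, s, i⟩ hu => ?_).exists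
  have e3 : ∀ᶠ ε in 𝓝[>] (0 : ℝ), S (s = true) (ε ^ 3 * σ s) := ev_S continuous_const (hσ s) 3
  have e1 : ∀ A : ℝ, ∀ᶠ ε in 𝓝[>] (0 : ℝ), 0 < 1 + ε ^ 2 * A + ε ^ 3 * σ s := fun A => by
    simpa using e0 True (fun ε => 1 + ε ^ 2 * A + ε ^ 3 * σ s) (by fun_prop) (by simp)
  by_cases t2 : t < 2
  swap
  · exact .of_forall fun _ q => (t2 q).elim
  simp only [t2, forall_true_left]
  refine .and ?_ (ev_all _ fun ⟨t', s', j⟩ hv => ?_)
  · interval_cases t <;> simp only [c, if_true, if_false, one_ne_zero, zero_ne_one, true_and, false_and]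
    · exact (e1 _).and ((e3.mono fun ε q => by convert q using 1; ring).and (e0 _ _ (by fun_prop) (by norm_num)))
    · exact (e1 _).and ((e0 _ _ (by fun_prop) (by norm_num)).and (e3.mono fun ε q => by convert q using 1; ring))
  by_cases t3 : t' < 2
  swap
  · exact .of_forall fun _ q => (t3 q).elim
  rw [mem_vs] at hu hv
  interval_cases t <;> interval_cases t' <;>
    simp only [c, if_true, if_false, one_ne_zero, r, G3, smul_dotProduct, dotProduct_smul, smul_eq_mul, true_or,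
      decide_true, Nat.reduceLeDiff, false_imp_iff, imp_true_iff, eventually_true, Nat.reduceLT, forall_true_left, le_refl,
      zero_le]
  · exact e0 _ _ (by fun_prop) (by norm_num)
  · have k := h i (by simpa using hu) j (by simpa using hv)
    generalize y i ⬝ᵥ z j = P, y i ⬝ᵥ y i = Y, z j ⬝ᵥ z j = Z, α i = A, β j = B at *
    refine (ev_S (g := fun ε => ((2 * A + Y + 2 * B + Z) / 4 + ε * (σ s + σ s')) * (4 + ε ^ 3 * (σ s + σ s')) -
      (Y + Z - 2 * P)) (by fun_prop) ?_ 2).mono fun ε q => by convert q using 1; ring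
    convert k.mul two_pos using 1
    · simp
    · ring
  · exact e0 _ _ (by fun_prop) (by norm_num)

theorem complete {m} (I : Inst N) (h : NF (m + 1) I) : BL (m + 2) (gr (vs I) (r I)) := by
  obtain ⟨c, h⟩ := small I h
  let C : ℝ → ℕ × Bool × N → ℝ × Pt (m + 1) := fun t u => if u.1 < 2 then c u else if u.1 = 2 then
    (1 / t ^ 3, -(1 / t ^ 3), 0) else if u.1 = 3 then
    (1 / t ^ 3 * (1 + t ^ 2), 4 + 1 / t ^ 3 * (1 - t ^ 2), (2 / t ^ 2) • Pi.single 0 1) else (1 / t ^ 3, 4 + 1 / t ^ 3, 0)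
  have ev : ∀ (b : Prop) (g f : ℝ → ℝ) (n : ℕ), Continuous g → S b (g 0) → (∀ t, t ≠ 0 → t ^ n * f t = g t) →
      ∀ᶠ t in 𝓝[>] (0 : ℝ), S b (f t) := fun b g f n a k e => by
    filter_upwards [e0 b g a k, self_mem_nhdsWithin] with t p (q : 0 < t)
    exact S.of_mul (pow_pos q n) (e t q.ne' ▸ p)
  have b : ∀ᶠ t in 𝓝[>] (0 : ℝ), ∀ u ∈ vs I, ∀ v ∈ vs I, u.1 ≤ v.1 → S (r I u v) (G3 (C t u) (C t v)) :=
    ev_all _ fun u hu => ev_all _ fun v hv => by
      by_cases q : u.1 ≤ v.1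
      swap
      · exact .of_forall fun _ a => (q a).elim
      simp only [q, forall_true_left]
      by_cases q1 : v.1 < 2
      · simp only [C, q1, q.trans_lt q1, if_true]
        exact .of_forall fun _ => (h u hu (q.trans_lt q1)).2 v hv q1 q
      obtain ⟨t', s', j⟩ := v
      have q2 : t' = 2 ∨ t' = 3 ∨ t' = 4 := by have := mem_vs.1 hv; omega
      by_cases q3 : u.1 < 2
      · obtain ⟨⟨-, a1, a2⟩, -⟩ := h u hu q3
        rcases q2 with rfl | rfl | rfl <;> simp only [C, q3, if_true, if_false, Nat.reduceLT, lt_self_iff_false,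
          Nat.reduceEqDiff, G3, smul_dotProduct, dotProduct_smul, smul_eq_mul, dotProduct_zero, dotProduct_single,
          Pi.single_eq_same, mul_one, Pi.smul_apply] <;>
          generalize (c u).1 = ρ, (c u).2.1 = x, (c u).2.2 ⬝ᵥ (c u).2.2 = W, (c u).2.2 0 = w at *
        · refine ev _ (fun t => t ^ 3 * (ρ ^ 2 - x ^ 2 - W) + 2 * (ρ - x)) _ 3 (by fun_prop) ?_ fun t a => by
            field_simp; ring
          convert a1.mul two_pos using 1
          · rcases (by omega : u.1 = 0 ∨ u.1 = 1) with e | e <;> simp [r, e]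
          · ring
        · refine ev _ (fun t => t ^ 3 * (ρ ^ 2 - (x - 4) ^ 2 - W) + 2 * (ρ * (1 + t ^ 2) + (x - 4) * (1 - t ^ 2) + 2 * t * w))
            _ 3 (by fun_prop) ?_ fun t a => by field_simp; ring
          convert a2.mul two_pos using 1
          · rcases (by omega : u.1 = 0 ∨ u.1 = 1) with e | e <;> simp [r, e]
          · ring
        · refine ev _ (fun t => t ^ 3 * (ρ ^ 2 - (x - 4) ^ 2 - W) + 2 * (ρ + x - 4)) _ 3 (by fun_prop) ?_ fun t a => by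
            field_simp; ring
          convert a2.mul two_pos using 1
          · rcases (by omega : u.1 = 0 ∨ u.1 = 1) with e | e <;> simp [r, e]
          · ring
      obtain ⟨t, s, i⟩ := u
      have q4 : t = 2 ∨ t = 3 ∨ t = 4 := by have := mem_vs.1 hu; omega
      rcases q2 with rfl | rfl | rfl <;> rcases q4 with rfl | rfl | rfl <;> simp at q <;> simp [C, r, G3, ← S_true, ← S_false]
      · exact ev _ (fun _ => 4) _ 6 (by fun_prop) (by simp) fun t a => by field_simp; ring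
      · exact ev _ (fun t => 4 - 16 * t ^ 4 - 8 * t * (2 - t ^ 2)) _ 4 (by fun_prop) (by simp) fun t a => by
          field_simp; ring
      · exact ev _ (fun t => 4 * (1 + t ^ 2) ^ 2) _ 6 (by fun_prop) (by simp) fun t a => by field_simp; ring
      · exact ev _ (fun t => -16 - 16 * t ^ 3) _ 3 (by fun_prop) (by simp) fun t a => by field_simp; ring
      · exact ev _ (fun _ => 4) _ 6 (by fun_prop) (by simp) fun t a => by field_simp; ring
      · exact ev _ (fun _ => 4) _ 6 (by fun_prop) (by simp) fun t a => by field_simp; ring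
  obtain ⟨t, b, (t0 : 0 < t)⟩ := (b.and self_mem_nhdsWithin).exists
  refine (bl_iff I).2 ⟨fun u => ((C t u).1, Fin.cons (C t u).2.1 (C t u).2.2), fun u hu => ?_, fun u hu v hv q _ => ?_⟩
  · simp only [C]
    split_ifs with a
    exacts [(h u hu a).1.1, by positivity, by positivity, by positivity]
  · have e : G3 (C t u) (C t v) ≠ 0 := by
      by_cases t : r I u v
      exacts [((b u hu v hv q).1 t).ne', ((b u hu v hv q).2 t).ne]
    rw [(b u hu v hv q).iff, ← e.symm.le_iff_lt]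
    refine iff_of_eq (congrArg _ ?_)
    simp only [G, G3, dotProduct, Fin.sum_univ_succ (n := m + 1), Fin.cons_zero, Fin.cons_succ]
    ring

theorem hard (d) (hd : 2 ≤ d) : Red ETR (BL d) := by
  obtain ⟨m, rfl⟩ : ∃ m, d = m + 2 := ⟨d - 2, by omega⟩
  obtain ⟨N, _, _, h⟩ := Pool.Agent.Lib.SG.hard m
  classical
  exact h _ _ _ pt_red complete sound

theorem inter {d} (x y : EuclideanSpace ℝ (Fin d)) {r s : ℝ} (a : 0 < r) (b : 0 < s) :
    (Metric.closedBall x r ∩ Metric.closedBall y s).Nonempty ↔ 0 ≤ G (r, x.ofLp) (s, y.ofLp) := by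
  have e : dist x y ^ 2 = x.ofLp ⬝ᵥ x.ofLp + y.ofLp ⬝ᵥ y.ofLp - 2 * x.ofLp ⬝ᵥ y.ofLp := by
    simp only [EuclideanSpace.dist_sq_eq, dotProduct, Finset.mul_sum, ← Finset.sum_add_distrib, ← Finset.sum_sub_distrib,
      Real.dist_eq, sq_abs]
    exact Finset.sum_congr rfl fun _ _ => by ring
  rw [← Set.not_disjoint_iff_nonempty_inter, disjoint_closedBall_closedBall_iff a.le b.le, not_lt,
    ← sq_le_sq₀ dist_nonneg (add_pos a b).le, e, G, sub_nonneg]

end Pool.Agent.H.MP_065e13_lc
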